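import Pool.Agent.H.MP_670a4f_lc.Omega1
import Pool.Agent.H.MP_670a4f_lc.St.Colour

/-!
# MP_670a4f_lc, Q46/Col: the colouring from a sequence of triangle-free graphs
-/

set_option autoImplicit false

namespace Pool.Agent.H.MP_670a4f_lc.St

open Set Cardinal Pool.Agent.H670

/-- the colour of the pair `x < y`: the least `n` with `E n x y` which is not a name of `x` or `y`,
otherwise a name of `y` -/
noncomputable def gE (E : ℕ → Om → Om → Prop) (r : Om → ℕ → Bool) (e : Om → Om → ℕ) (x y : Om) : ℕ :=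
  open Classical in
  if h : ∃ n, E n x y ∧ n ∉ range (lam r x) ∧ n ∉ range (lam r y) then Nat.find h
  else lam r y (e y x)

theorem gE_cases (E : ℕ → Om → Om → Prop) (r : Om → ℕ → Bool) (e : Om → Om → ℕ) (x y : Om) :
    (E (gE E r e x y) x y ∧ gE E r e x y ∉ range (lam r x) ∧ gE E r e x y ∉ range (lam r y)) ∨
      gE E r e x y = lam r y (e y x) := by
  classical
  by_cases h : ∃ n, E n x y ∧ n ∉ range (lam r x) ∧ n ∉ range (lam r y)
  · left
    have h1 : gE E r e x y = Nat.find h := by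
      unfold gE
      rw [dif_pos h]
    rw [h1]
    exact Nat.find_spec h
  · right
    unfold gE
    rw [dif_neg h]

theorem gE_eq {E : ℕ → Om → Om → Prop} (r : Om → ℕ → Bool) (e : Om → Om → ℕ) {x y : Om}
    {n : ℕ} (h1 : E n x y) (h0 : ∀ k, k < n → ¬ E k x y) (h2 : n ∉ range (lam r x))
    (h3 : n ∉ range (lam r y)) : gE E r e x y = n := by
  classical
  have h : ∃ n, E n x y ∧ n ∉ range (lam r x) ∧ n ∉ range (lam r y) := ⟨n, h1, h2, h3⟩
  have h4 : gE E r e x y = Nat.find h := by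
    unfold gE
    rw [dif_pos h]
  rw [h4]
  rcases lt_trichotomy (Nat.find h) n with h5 | h5 | h5
  · exact absurd (Nat.find_spec h).1 (h0 _ h5)
  · exact h5
  · exact absurd ⟨h1, h2, h3⟩ (Nat.find_min h h5)

/-- no monochromatic triangle -/
theorem gE_triangle {E : ℕ → Om → Om → Prop}
    (hE : ∀ n a b c, a < b → b < c → E n a b → E n b c → E n a c → False)
    (r : Om → ℕ → Bool) {e : Om → Om → ℕ}
    (he : ∀ y a b, a < y → b < y → e y a = e y b → a = b) {a b c : Om} (hab : a < b) (hbc : b < c)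
    (h1 : gE E r e a b = gE E r e b c) (h2 : gE E r e b c = gE E r e a c) : False := by
  rcases gE_cases E r e b c with hb | hb
  · rcases gE_cases E r e a c with hc | hc
    · rcases gE_cases E r e a b with ha | ha
      · rw [h1] at ha
        rw [← h2] at hc
        exact hE _ _ _ _ hab hbc ha.1 hb.1 hc.1
      · apply hb.2.1
        rw [← h1, ha]
        exact ⟨_, rfl⟩
    · apply hb.2.2
      rw [h2, hc]
      exact ⟨_, rfl⟩
  · rcases gE_cases E r e a c with hc | hc
    · apply hc.2.2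
      rw [← h2, hb]
      exact ⟨_, rfl⟩
    · have h3 : lam r c (e c b) = lam r c (e c a) := by rw [← hb, ← hc]; exact h2
      exact absurd (he c a b (lt_trans hab hbc) hbc (lam_inj r c h3.symm)) hab.ne

/-- The colouring. -/
theorem col_of_edges (E : ℕ → Om → Om → Prop) (r : Om → ℕ → Bool)
    (hE : ∀ n a b c, a < b → b < c → E n a b → E n b c → E n a c → False)
    (hX : ∀ X : Set Om, ¬ X.Countable → ∃ N : ℕ, ∀ n, N ≤ n → ∃ a ∈ X, ∃ b ∈ X, a < b ∧
      E n a b ∧ (∀ k, k < n → ¬ E k a b) ∧ n ∉ range (lam r a) ∧ n ∉ range (lam r b)) :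
    ∃ c : Sym2 {o : Ordinal.{0} // o < (Cardinal.aleph 1).ord} → ℕ,
      (∀ a b d : {o : Ordinal.{0} // o < (Cardinal.aleph 1).ord},
          a ≠ b → b ≠ d → a ≠ d →
          ¬ (c s(a, b) = c s(b, d) ∧ c s(b, d) = c s(a, d))) ∧
      (∀ X : Set {o : Ordinal.{0} // o < (Cardinal.aleph 1).ord},
          ¬ X.Countable →
          {n : ℕ | ¬ ∃ a ∈ X, ∃ b ∈ X, a ≠ b ∧ c s(a, b) = n}.Finite) := by
  obtain ⟨e, he⟩ := exists_e
  have key : ∀ a b d : Om, a < b → b < d →
      ¬ (sym (gE E r e) s(a, b) = sym (gE E r e) s(b, d) ∧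
        sym (gE E r e) s(b, d) = sym (gE E r e) s(a, d)) := by
    intro a b d hab hbd h
    rw [sym_of_lt _ hab, sym_of_lt _ hbd, sym_of_lt _ (lt_trans hab hbd)] at h
    exact gE_triangle hE r he hab hbd h.1 h.2
  have hsw : ∀ u v : Om, sym (gE E r e) s(u, v) = sym (gE E r e) s(v, u) := fun u v => by
    rw [Sym2.eq_swap]
  refine ⟨sym (gE E r e), ?_, ?_⟩
  · intro a b d hab hbd had h
    obtain ⟨h1, h2⟩ := h
    rcases lt_or_gt_of_ne hab with ab | ab <;> rcases lt_or_gt_of_ne hbd with bd | bd <;>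
      rcases lt_or_gt_of_ne had with ad | ad
    · exact key a b d ab bd ⟨h1, h2⟩
    · exact absurd (lt_trans ab bd) (lt_asymm ad)
    · exact key a d b ad bd ⟨h2.symm.trans (hsw b d), (hsw d b).trans h1.symm⟩
    · exact key d a b ad ab ⟨((hsw d a).trans h2.symm).trans h1.symm, h1.trans (hsw b d)⟩
    · exact key b a d ab ad ⟨(hsw b a).trans (h1.trans h2), h2.symm⟩
    · exact key b d a bd ad ⟨h2.trans (hsw a d),
        ((hsw d a).trans h2.symm).trans (h1.symm.trans (hsw a b))⟩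
    · exact absurd (lt_trans bd ab) (lt_asymm ad)
    · exact key d b a bd ab ⟨(hsw d b).trans (h1.symm.trans (hsw a b)),
        (hsw b a).trans ((h1.trans h2).trans (hsw a d))⟩
  · intro X hXc
    obtain ⟨N, hN⟩ := hX X hXc
    apply (Set.finite_Iio N).subset
    intro n hn
    by_contra hc
    obtain ⟨x, hx, y, hy, hxy, h1, h2, h3, h4⟩ := hN n (not_lt.1 hc)
    exact hn ⟨x, hx, y, hy, hxy.ne, by rw [sym_of_lt _ hxy]; exact gE_eq r e h1 h2 h3 h4⟩

end Pool.Agent.H.MP_670a4f_lc.St
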