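import Pool.Agent.H.MP_670a4f_lc.Q46.Ideal
import Pool.Agent.H.MP_670a4f_lc.St.Colour

/-!
# MP_670a4f_lc, Q46/Real: from an uncountable set to a stationary set of nodes with two points above each node
-/

set_option autoImplicit false

namespace Pool.Agent.H.MP_670a4f_lc.St

open Set Cardinal

theorem stat_Lm : IsStationary Lm := by
  intro D hD
  obtain ⟨x, hx, _⟩ := club_mem_gt (club_Lm.inter om_cof hD) (Classical.arbitrary Om)
  exact ⟨x, hx.1, hx.2⟩

theorem lam_eq_iff {r : Om → ℕ → Bool} {x y : Om} {k : ℕ} :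
    lam r x k = lam r y k ↔ ∀ i, i < k → r x i = r y i := by
  constructor
  · intro h i hi
    exact List.map_inj_left.1 (Encodable.encode_injective h) i (List.mem_range.2 hi)
  · intro h
    unfold lam
    congr 1
    exact List.map_inj_left.2 (fun i hi => h i (List.mem_range.1 hi))

theorem lam_mono {r : Om → ℕ → Bool} {x y : Om} {k l : ℕ} (h : lam r x l = lam r y l) (hk : k ≤ l) :
    lam r x k = lam r y k :=
  lam_eq_iff.2 (fun i hi => lam_eq_iff.1 h i (lt_of_lt_of_le hi hk))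

theorem lam_ne {r : Om → ℕ → Bool} (hr : Function.Injective r) {x y : Om} (hxy : x ≠ y) :
    ∃ l, lam r x l ≠ lam r y l := by
  obtain ⟨i, hi⟩ := Function.ne_iff.1 (fun h => hxy (hr h))
  exact ⟨i + 1, fun h => hi (lam_eq_iff.1 h i (Nat.lt_succ_self i))⟩

/-- names for two functions on a stationary set -/
theorem stat_names2 {r : Om → ℕ → Bool} (hr : Function.Injective r) {Z : Set Om}
    (hZ : IsStationary Z) (b b' : Om → Om) (hb : ∀ x ∈ Z, x ≤ b x) (hb' : ∀ x ∈ Z, x ≤ b' x) :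
    ∃ N : ℕ, ∀ n, N ≤ n →
      IsStationary {x | x ∈ Z ∧ n ∉ range (lam r (b x)) ∧ n ∉ range (lam r (b' x))} := by
  classical
  let S : Set ℕ := {n | ¬ IsStationary {x | x ∈ Z ∧ n ∉ range (lam r (b x)) ∧
    n ∉ range (lam r (b' x))}}
  have hS : S.Finite := by
    have h1 : Z ⊆ ⋃ j : Option S, (match j with
        | none => {x | x ∈ Z ∧ ∀ n ∈ S, n ∈ range (lam r (b x)) ∨ n ∈ range (lam r (b' x))}
        | some n => {x | x ∈ Z ∧ n.1 ∉ range (lam r (b x)) ∧ n.1 ∉ range (lam r (b' x))}) := by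
      intro x hx
      by_cases h : ∀ n ∈ S, n ∈ range (lam r (b x)) ∨ n ∈ range (lam r (b' x))
      · exact mem_iUnion.2 ⟨none, hx, h⟩
      · push Not at h
        obtain ⟨n, hn, hnx⟩ := h
        exact mem_iUnion.2 ⟨some ⟨n, hn⟩, hx, hnx⟩
    obtain ⟨j, hj⟩ := stat_cover hZ h1
    cases j with
    | none =>
      obtain ⟨x, hx⟩ := hj.nonempty
      obtain ⟨y, hy, hxy⟩ := stat_gt hj (max (b x) (b' x))
      have e1 : b x < y := lt_of_le_of_lt (le_max_left _ _) hxy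
      have e2 : b' x < y := lt_of_le_of_lt (le_max_right _ _) hxy
      have f1 : y ≤ b y := hb y hy.1
      have f2 : y ≤ b' y := hb' y hy.1
      have g1 := lam_ad r hr (ne_of_lt (lt_of_lt_of_le e1 f1))
      have g2 := lam_ad r hr (ne_of_lt (lt_of_lt_of_le e1 f2))
      have g3 := lam_ad r hr (ne_of_lt (lt_of_lt_of_le e2 f1))
      have g4 := lam_ad r hr (ne_of_lt (lt_of_lt_of_le e2 f2))
      apply ((g1.union g2).union (g3.union g4)).subset
      intro n hn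
      rcases hx.2 n hn with h | h <;> rcases hy.2 n hn with h' | h'
      · exact Or.inl (Or.inl ⟨h, h'⟩)
      · exact Or.inl (Or.inr ⟨h, h'⟩)
      · exact Or.inr (Or.inl ⟨h, h'⟩)
      · exact Or.inr (Or.inr ⟨h, h'⟩)
    | some n => exact absurd hj n.2
  obtain ⟨N, hN⟩ := hS.bddAbove
  refine ⟨N + 1, ?_⟩
  intro n hn
  by_contra hc
  have : n ≤ N := hN (show n ∈ S from hc)
  omega

theorem cover_set {ι : Type*} [Countable ι] {Y : Set Om} (hY : IsStationary Y) (f : Om → ι) :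
    ∃ i, IsStationary {x | x ∈ Y ∧ f x = i} := by
  apply stat_cover hY
  intro x hx
  exact mem_iUnion.2 ⟨f x, hx, rfl⟩

/-- The realisation. -/
theorem real {rho : Om → Om → ℕ} (hfin : ∀ b n, {a | a < b ∧ rho a b ≤ n}.Finite)
    {r : Om → ℕ → Bool} (hr : Function.Injective r) {X : Set Om} (hX : ¬ X.Countable) :
    ∃ m0 N : ℕ, m0 ≤ N ∧ ∀ m, N ≤ m → ∃ (S : Set Om) (b b' : Om → Om) (s s' : ℕ),
      IsStationary S ∧ S ⊆ Lm ∧ s ≠ s' ∧
      (∀ x ∈ S, b x ∈ X ∧ b' x ∈ X ∧ x ≤ b x ∧ x ≤ b' x ∧ rho x (b x) ≤ m0 ∧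
        rho x (b' x) ≤ m0 ∧ lam r (b x) m = s ∧ lam r (b' x) m = s' ∧
        m ∉ range (lam r (b x)) ∧ m ∉ range (lam r (b' x))) ∧
      (∀ x ∈ S, ∀ y ∈ S, ∀ k, k ≤ m0 → lam r (b x) k = lam r (b' y) k) ∧
      (∀ x ∈ S, ∀ y ∈ S, ∀ k, k ≤ m → ∀ z, (z < x ∧ rho z x ≤ k) → (z < y ∧ rho z y ≤ k)) := by
  classical
  -- two points above each node
  have step1 : ∀ d : Om, ∃ k, ¬ {b | b ∈ X ∧ d ≤ b ∧ rho d b ≤ k}.Countable := by
    intro d
    by_contra hc
    push Not at hc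
    apply hX
    have h1 : X ⊆ Iio d ∪ ⋃ k, {b | b ∈ X ∧ d ≤ b ∧ rho d b ≤ k} := by
      intro b hb
      by_cases hbd : b < d
      · exact Or.inl hbd
      · exact Or.inr (mem_iUnion.2 ⟨rho d b, hb, not_lt.1 hbd, le_rfl⟩)
    exact ((om_countable d).union (countable_iUnion hc)).mono h1
  choose kk hkk using step1
  obtain ⟨m0, hm0⟩ := cover_set stat_Lm kk
  have step2 : ∀ d : Om, ∃ b b' : Om, kk d = m0 → b ∈ X ∧ b' ∈ X ∧ d ≤ b ∧ d ≤ b' ∧
      rho d b ≤ m0 ∧ rho d b' ≤ m0 ∧ lam r b m0 = lam r b' m0 ∧ b ≠ b' := by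
    intro d
    by_cases hd : kk d = m0
    · by_contra hc
      push Not at hc
      apply hkk d
      rw [hd]
      apply (Set.countable_iff_exists_injOn).2
      refine ⟨fun b => lam r b m0, ?_⟩
      intro b hb b' hb' hbb
      by_contra hne
      obtain ⟨_, h1⟩ := hc b b'
      exact hne (h1 hb.1 hb'.1 hb.2.1 hb'.2.1 hb.2.2 hb'.2.2 hbb)
    · exact ⟨d, d, fun h => absurd h hd⟩
  choose b b' hbb using step2
  have step3 : ∀ d : Om, ∃ l, kk d = m0 → lam r (b d) l ≠ lam r (b' d) l := by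
    intro d
    by_cases hd : kk d = m0
    · obtain ⟨l, hl⟩ := lam_ne hr (hbb d hd).2.2.2.2.2.2.2
      exact ⟨l, fun _ => hl⟩
    · exact ⟨0, fun h => absurd h hd⟩
  choose ll hll using step3
  obtain ⟨⟨c, l⟩, hS1⟩ := cover_set hm0 (fun d => (lam r (b d) m0, ll d))
  have hS1k : ∀ x ∈ {x | x ∈ {x | x ∈ Lm ∧ kk x = m0} ∧ (fun d => (lam r (b d) m0, ll d)) x = (c, l)},
      x ∈ Lm ∧ kk x = m0 ∧ lam r (b x) m0 = c ∧ ll x = l := by
    intro x hx
    have := hx.2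
    simp only [Prod.mk.injEq] at this
    exact ⟨hx.1.1, hx.1.2, this.1, this.2⟩
  set S1 : Set Om := {x | x ∈ {x | x ∈ Lm ∧ kk x = m0} ∧
    (fun d => (lam r (b d) m0, ll d)) x = (c, l)} with hS1def
  obtain ⟨N0, hN0⟩ := stat_names2 hr hS1 b b' (fun x hx => (hbb x (hS1k x hx).2.1).2.2.1)
    (fun x hx => (hbb x (hS1k x hx).2.1).2.2.2.1)
  refine ⟨m0, max (max N0 l) m0, le_max_right _ _, ?_⟩
  intro m hm
  have hmN : N0 ≤ m := le_trans (le_trans (le_max_left _ _) (le_max_left _ _)) hm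
  have hml : l ≤ m := le_trans (le_trans (le_max_right _ _) (le_max_left _ _)) hm
  have hS2 := hN0 m hmN
  set S2 : Set Om := {x | x ∈ S1 ∧ m ∉ range (lam r (b x)) ∧ m ∉ range (lam r (b' x))} with hS2def
  -- pressing down
  have step4 : ∀ x : Om, ∃ g : Om, x ∈ Lm → g < x ∧ ∀ z, z < x → rho z x ≤ m → z ≤ g := by
    intro x
    by_cases hx : x ∈ Lm
    · obtain ⟨a0, ha0⟩ := hx.1
      have hf : (insert a0 {z | z < x ∧ rho z x ≤ m}).Finite := (hfin x m).insert a0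
      obtain ⟨g, hg, hmax⟩ := Set.exists_max_image _ id hf ⟨a0, mem_insert _ _⟩
      refine ⟨g, fun _ => ⟨?_, ?_⟩⟩
      · rcases hg with rfl | hg
        · exact ha0
        · exact hg.1
      · intro z hz hz2
        exact hmax z (mem_insert_of_mem _ ⟨hz, hz2⟩)
    · exact ⟨x, fun h => absurd h hx⟩
  choose gg hgg using step4
  obtain ⟨g0, hS3⟩ := fodor hS2 gg (fun x hx => (hgg x (hS1k x hx.1).1).1)
  have hcg : Countable (Iic g0) := by
    have h2 : Iic g0 = Iio g0 ∪ {g0} := by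
      ext t
      simp [le_iff_lt_or_eq]
    rw [h2]
    exact ((om_countable g0).union (countable_singleton g0)).to_subtype
  have step5 : ∀ x : Om, ∃ φ : Fin (m + 1) → Finset (Iic g0), ∀ k z, z ∈ φ k ↔
      (z.1 < x ∧ rho z.1 x ≤ k.1) := by
    intro x
    have hf : ∀ k : Fin (m + 1), {z : Iic g0 | z.1 < x ∧ rho z.1 x ≤ k.1}.Finite := by
      intro k
      apply Set.Finite.of_finite_image (f := Subtype.val)
      · apply (hfin x k.1).subset
        rintro _ ⟨z, hz, rfl⟩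
        exact hz
      · exact Subtype.val_injective.injOn
    exact ⟨fun k => (hf k).toFinset, fun k z => by rw [Set.Finite.mem_toFinset]; rfl⟩
  choose φ hφ using step5
  obtain ⟨⟨f, s, s'⟩, hS4⟩ := cover_set hS3 (fun x => (φ x, lam r (b x) m, lam r (b' x) m))
  have hS4k : ∀ x ∈ {x | x ∈ {x | x ∈ S2 ∧ gg x = g0} ∧
      (fun x => (φ x, lam r (b x) m, lam r (b' x) m)) x = (f, s, s')},
      x ∈ S2 ∧ gg x = g0 ∧ φ x = f ∧ lam r (b x) m = s ∧ lam r (b' x) m = s' := by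
    intro x hx
    have := hx.2
    simp only [Prod.mk.injEq] at this
    exact ⟨hx.1.1, hx.1.2, this.1, this.2.1, this.2.2⟩
  refine ⟨_, b, b', s, s', hS4, ?_, ?_, ?_, ?_, ?_⟩
  · intro x hx
    exact (hS1k x (hS4k x hx).1.1).1
  · obtain ⟨x, hx⟩ := hS4.nonempty
    obtain ⟨h2, _, _, h3, h4⟩ := hS4k x hx
    obtain ⟨_, h5, _, h6⟩ := hS1k x h2.1
    intro hss
    have h7 : lam r (b x) l = lam r (b' x) l := lam_mono (by rw [h3, h4, hss]) hml
    have h8 := hll x h5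
    rw [h6] at h8
    exact h8 h7
  · intro x hx
    obtain ⟨h2, _, _, h3, h4⟩ := hS4k x hx
    obtain ⟨_, h5, _, _⟩ := hS1k x h2.1
    obtain ⟨k1, k2, k3, k4, k5, k6, _, _⟩ := hbb x h5
    exact ⟨k1, k2, k3, k4, k5, k6, h3, h4, h2.2.1, h2.2.2⟩
  · intro x hx y hy k hk
    obtain ⟨hx2, _⟩ := hS4k x hx
    obtain ⟨hy2, _⟩ := hS4k y hy
    obtain ⟨_, _, hxc, _⟩ := hS1k x hx2.1
    obtain ⟨_, hy5, hyc, _⟩ := hS1k y hy2.1
    have h7 : lam r (b x) m0 = lam r (b' y) m0 := by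
      rw [hxc, ← (hbb y hy5).2.2.2.2.2.2.1, hyc]
    exact lam_mono h7 hk
  · intro x hx y hy k hk z hz
    obtain ⟨hx2, hxg, hxf, _⟩ := hS4k x hx
    obtain ⟨hy2, hyg, hyf, _⟩ := hS4k y hy
    have hzg : z ≤ g0 := by
      rw [← hxg]
      exact (hgg x (hS1k x hx2.1).1).2 z hz.1 (le_trans hz.2 hk)
    have h8 : (⟨z, hzg⟩ : Iic g0) ∈ φ x ⟨k, Nat.lt_succ_of_le hk⟩ := (hφ x _ _).2 hz
    rw [hxf, ← hyf] at h8
    exact (hφ y _ _).1 h8

end Pool.Agent.H.MP_670a4f_lc.St
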