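import Pool.Agent.H.MP_670a4f_lc.Q46.Lad
import Pool.Agent.H.MP_670a4f_lc.Q46.Real
import Pool.Agent.H.MP_670a4f_lc.Q46.Col
import Pool.Agent.H.MP_670a4f_lc.QTri

/-!
# MP_670a4f_lc, Q46/Fin: the theorem
-/

set_option autoImplicit false

namespace Pool.Agent.H.MP_670a4f_lc.St

open Set Cardinal

/-- Every uncountable set contains, for almost all `m`, an edge of colour `m` of no smaller colour. -/
theorem Eg.real {rho : Om → Om → ℕ} (hs : Sub rho)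
    (hfin : ∀ b n, {a | a < b ∧ rho a b ≤ n}.Finite) {L : Om → ℕ → Om} (hL : Ladder L)
    {r : Om → ℕ → Bool} (hr : Function.Injective r) {o : Om → Om → ℕ} (ho : Rc o)
    {X : Set Om} (hX : ¬ X.Countable) : ∃ N : ℕ, ∀ n, N ≤ n → ∃ a ∈ X, ∃ b ∈ X, a < b ∧
      Eg rho L r o n a b ∧ (∀ k, k < n → ¬ Eg rho L r o k a b) ∧ n ∉ range (lam r a) ∧
      n ∉ range (lam r b) := by
  obtain ⟨m0, N, hm0, hN⟩ := St.real hfin hr hX
  refine ⟨N, fun m hm => ?_⟩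
  obtain ⟨S, b, b', s, s', hS, hSL, hss, hb, h0, hF⟩ := hN m hm
  obtain ⟨x, hx, y, hy, hxy, hbxy, p, q, hW, o1, o2, o3⟩ :=
    build3 hL ho hS hSL b (cd m s s') s' s
  obtain ⟨a1, _, a3, _, a5, _, a7, _, a9, _⟩ := hb x hx
  obtain ⟨_, b2, _, b4, _, b6, _, b8, _, b10⟩ := hb y hy
  have key := Eg.of_build (rho := rho) hs (L := L) (r := r) (o := o) (m := m) (m0 := m0)
    (a := b x) (b := b' y) (x := x) (y := y) (le_trans hm0 hm) hxy a3 a5 b4 b6 hbxy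
    (fun k _ hk z => ⟨hF x hx y hy k hk z, hF y hy x hx k hk z⟩) (hSL hx) (hSL hy)
    (h0 x hx y hy m0 le_rfl) (by rw [a7, b8]; exact hss) hW (by rw [a7, b8]; exact o1)
    (by rw [b8]; exact o2) (by rw [a7]; exact o3)
  exact ⟨b x, a1, b' y, b2, lt_of_lt_of_le hbxy b4, key.1, key.2, a9, b10⟩

theorem main :
    ∃ c : Sym2 {o : Ordinal.{0} // o < (Cardinal.aleph 1).ord} → ℕ,
      (∀ a b d : {o : Ordinal.{0} // o < (Cardinal.aleph 1).ord},
          a ≠ b → b ≠ d → a ≠ d →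
          ¬ (c s(a, b) = c s(b, d) ∧ c s(b, d) = c s(a, d))) ∧
      (∀ X : Set {o : Ordinal.{0} // o < (Cardinal.aleph 1).ord},
          ¬ X.Countable →
          {n : ℕ | ¬ ∃ a ∈ X, ∃ b ∈ X, a ≠ b ∧ c s(a, b) = n}.Finite) := by
  obtain ⟨L, hL⟩ := exists_ladders
  obtain ⟨r, hr⟩ := om_real
  obtain ⟨o, ho⟩ := exists_rc
  obtain ⟨rho, hs, hfin⟩ := exists_sub (W := Om) om_countable
  exact col_of_edges (Eg rho L r o) r (fun n a b c _ _ h1 h2 h3 => h1.triangle hs hL h2 h3)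
    (fun X hX => Eg.real hs hfin hL hr ho hX)

end Pool.Agent.H.MP_670a4f_lc.St
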