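import Pool.Agent.H.MP_670a4f_lc.St.Types
import Pool.Agent.H.MP_670a4f_lc.Rect

/-!
# MP_670a4f_lc, Q46/Ideal: a rectangle colouring against a countably additive family of large sets
-/

set_option autoImplicit false

namespace Pool.Agent.H.MP_670a4f_lc.St

open Set Cardinal

/-- the property of Moore's rectangle colouring -/
def Rc (o : Om → Om → ℕ) : Prop :=
  ∀ A B : Set Om, ¬ A.Countable → ¬ B.Countable → ∀ j : ℕ, ∃ a ∈ A, ∃ b ∈ B, a < b ∧ o a b = j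

theorem exists_rc : ∃ o : Om → Om → ℕ, Rc o := exists_rect om_countable

theorem not_countable_of_unb {A : Set Om} (h : ∀ γ, ∃ x ∈ A, γ < x) : ¬ A.Countable := by
  intro hA
  obtain ⟨b, hb⟩ := om_bdd hA
  obtain ⟨x, hx, hbx⟩ := h b
  exact lt_asymm hbx (hb x hx)

theorem unb_of_not_countable {A : Set Om} (h : ¬ A.Countable) : ∀ γ, ∃ x ∈ A, γ < x := by
  intro γ
  by_contra hc
  push Not at hc
  apply h
  have h1 : A ⊆ Iio γ ∪ {γ} := by
    intro x hx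
    rcases (hc x hx).lt_or_eq with h2 | h2
    · exact Or.inl h2
    · exact Or.inr h2
  exact ((om_countable γ).union (countable_singleton γ)).mono h1

/-- a notion of large set: monotone, countably additive, large sets are uncountable -/
structure Large (P : Set Om → Prop) : Prop where
  mono : ∀ A B, A ⊆ B → P A → P B
  cover : ∀ (A : Set Om) (F : ℕ → Set Om), P A → A ⊆ ⋃ i, F i → ∃ i, P (A ∩ F i)
  unc : ∀ A, P A → ¬ A.Countable

theorem Large.cover' {P : Set Om → Prop} (hP : Large P) {ι : Type*} [Countable ι]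
    {A : Set Om} {F : ι → Set Om} (hA : P A) (hF : A ⊆ ⋃ i, F i) : ∃ i, P (A ∩ F i) := by
  have hne : Nonempty ι := by
    by_contra h
    rw [not_nonempty_iff] at h
    apply hP.unc A hA
    have : A ⊆ ∅ := by simpa using hF
    exact countable_empty.mono this
  obtain ⟨f, hf⟩ := exists_surjective_nat ι
  obtain ⟨n, hn⟩ := hP.cover A (fun n => F (f n)) hA (by
    intro x hx
    obtain ⟨i, hi⟩ := mem_iUnion.1 (hF hx)
    obtain ⟨n, rfl⟩ := hf i
    exact mem_iUnion.2 ⟨n, hi⟩)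
  exact ⟨f n, hn⟩

/-- The ideal lemma. -/
theorem Large.ideal {P : Set Om → Prop} (hP : Large P) {o : Om → Om → ℕ} (ho : Rc o)
    {A U : Set Om} (hA : P A) (hU : ¬ U.Countable) (j : ℕ) :
    ∃ u ∈ U, P {x | x ∈ A ∧ u < x ∧ o u x = j} := by
  classical
  by_contra hc
  push Not at hc
  have hU' := unb_of_not_countable hU
  have step : ∀ γ : Om, ∃ x ∈ A, γ < x ∧ ∀ u ∈ U, u ≤ γ → u < x → o u x ≠ j := by
    intro γ
    by_contra h
    push Not at h
    have h1 : A ⊆ ⋃ t : Option (Iic γ), (match t with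
        | none => Iic γ
        | some u => {x | u.1 ∈ U ∧ x ∈ A ∧ u.1 < x ∧ o u.1 x = j}) := by
      intro x hx
      by_cases hx1 : x ≤ γ
      · exact mem_iUnion.2 ⟨none, hx1⟩
      · obtain ⟨u, hu, huγ, hux, ho1⟩ := h x hx (not_le.1 hx1)
        exact mem_iUnion.2 ⟨some ⟨u, huγ⟩, hu, hx, hux, ho1⟩
    have hcI : (Iic γ).Countable := by
      have h2 : Iic γ = Iio γ ∪ {γ} := by
        ext t
        simp [le_iff_lt_or_eq]
      rw [h2]
      exact (om_countable γ).union (countable_singleton γ)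
    have : Countable (Iic γ) := hcI.to_subtype
    obtain ⟨t, ht⟩ := hP.cover' hA h1
    cases t with
    | none =>
      exact hP.unc _ ht (hcI.mono (fun x hx => hx.2))
    | some u =>
      by_cases hu : u.1 ∈ U
      · exact hc u.1 hu (hP.mono _ _ (fun x hx => hx.2.2) ht)
      · apply hP.unc _ ht
        have : A ∩ {x | u.1 ∈ U ∧ x ∈ A ∧ u.1 < x ∧ o u.1 x = j} ⊆ ∅ := by
          intro x hx
          exact hu hx.2.1
        exact countable_empty.mono this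
  choose f hfA hfγ hfo using step
  have step2 : ∀ γ : Om, ∃ u ∈ U, f γ < u := fun γ => hU' (f γ)
  choose v hvU hv using step2
  have hclub : IsClub {x : Om | ∀ a, a < x → x ∈ Ioi (v a)} := club_diag (fun a => club_Ioi (v a))
  set D : Set Om := {x : Om | ∀ a, a < x → x ∈ Ioi (v a)} with hD
  have hDu : ∀ γ, ∃ x ∈ D, γ < x := fun γ => club_mem_gt hclub γ
  have hA' : ¬ (f '' D).Countable := by
    apply not_countable_of_unb
    intro γ
    obtain ⟨x, hx, hγ⟩ := hDu γ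
    exact ⟨f x, ⟨x, hx, rfl⟩, lt_trans hγ (hfγ x)⟩
  have hU2 : ¬ (v '' D).Countable := by
    apply not_countable_of_unb
    intro γ
    obtain ⟨x, hx, hγ⟩ := hDu γ
    exact ⟨v x, ⟨x, hx, rfl⟩, lt_trans hγ (lt_trans (hfγ x) (hv x))⟩
  obtain ⟨_, ⟨γ, hγ, rfl⟩, _, ⟨γ', hγ', rfl⟩, hlt, ho1⟩ := ho _ _ hU2 hA' j
  have h1 : γ < γ' := by
    by_contra h
    have h2 : γ' ≤ γ := not_lt.1 h
    rcases h2.lt_or_eq with h3 | h3
    · have h4 : v γ' < γ := hγ γ' h3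
      exact absurd hlt (not_lt.2 (le_trans (hv γ').le (le_trans h4.le (le_trans (hfγ γ).le (hv γ).le))))
    · subst h3
      exact absurd hlt (not_lt.2 (hv _).le)
  have h2 : v γ < γ' := hγ' γ h1
  exact hfo γ' (v γ) (hvU γ) h2.le hlt ho1

theorem Typ.mono {L : Om → ℕ → Om} : ∀ {s : List ℕ} {Y Z : Set Om}, Typ L s Y → Y ⊆ Z → Typ L s Z
  | [], Y, Z, h, hYZ => IsStationary.mono h hYZ
  | m :: s, Y, Z, h, hYZ => by
    obtain ⟨T, hT, hA, hU⟩ := h
    exact ⟨T, hT.trans hYZ, hA, hU⟩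

theorem Typ.unc {L : Om → ℕ → Om} : ∀ {s : List ℕ} {Y : Set Om}, Typ L s Y → ¬ Y.Countable
  | [], Y, h => not_countable_of_unb (fun γ => stat_gt h γ)
  | m :: s, Y, h => by
    obtain ⟨T, hT, _, hU⟩ := h
    obtain ⟨α, _, h3⟩ := hU (Classical.arbitrary Om)
    intro hY
    exact Typ.unc h3 (hY.mono (fun x hx => hT hx.1))

theorem Typ.cover {L : Om → ℕ → Om} : ∀ {s : List ℕ} {ι : Type} [Countable ι] {Y : Set Om}
    {F : ι → Set Om}, Typ L s Y → Y ⊆ ⋃ i, F i → ∃ i, Typ L s (Y ∩ F i)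
  | [], ι, _, Y, F, h, hF => by
    have h1 : Y ⊆ ⋃ i, (Y ∩ F i) := by
      intro x hx
      obtain ⟨i, hi⟩ := mem_iUnion.1 (hF hx)
      exact mem_iUnion.2 ⟨i, hx, hi⟩
    exact stat_cover h h1
  | m :: s, ι, _, Y, F, h, hF => by
    obtain ⟨T, hT, hA, hU⟩ := h
    have h1 : ∀ γ : Om, ∃ α, γ < α ∧ ∃ i, Typ L s ({x | x ∈ T ∧ L x m = α} ∩ F i) := by
      intro γ
      obtain ⟨α, hα, h2⟩ := hU γ
      exact ⟨α, hα, Typ.cover h2 (fun x hx => hF (hT hx.1))⟩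
    obtain ⟨i, hi⟩ := pigeon h1
    refine ⟨i, T ∩ F i, fun x hx => ⟨hT hx.1, hx.2⟩, hA.mono (fun x hx => hx.1), ?_⟩
    intro γ
    obtain ⟨α, hα, h2⟩ := hi γ
    exact ⟨α, hα, h2.mono (fun x hx => ⟨⟨hx.1.1, hx.2⟩, hx.1.2⟩)⟩

/-- the unbounded splitting part of `Sp` -/
def Un (L : Om → ℕ → Om) (m : ℕ) (s : List ℕ) (Y : Set Om) : Prop :=
  ∀ γ, ∃ α, γ < α ∧ Typ L s {x | x ∈ Y ∧ L x m = α}

theorem Un.large (L : Om → ℕ → Om) (m : ℕ) (s : List ℕ) : Large (Un L m s) := by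
  refine ⟨?_, ?_, ?_⟩
  · intro A B hAB h γ
    obtain ⟨α, hα, h1⟩ := h γ
    exact ⟨α, hα, h1.mono (fun x hx => ⟨hAB hx.1, hx.2⟩)⟩
  · intro A F h hF
    have h1 : ∀ γ : Om, ∃ α, γ < α ∧ ∃ i, Typ L s ({x | x ∈ A ∧ L x m = α} ∩ F i) := by
      intro γ
      obtain ⟨α, hα, h2⟩ := h γ
      exact ⟨α, hα, Typ.cover h2 (fun x hx => hF hx.1)⟩
    obtain ⟨i, hi⟩ := pigeon h1
    refine ⟨i, ?_⟩
    intro γ
    obtain ⟨α, hα, h2⟩ := hi γ
    exact ⟨α, hα, h2.mono (fun x hx => ⟨⟨hx.1.1, hx.2⟩, hx.1.2⟩)⟩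
  · intro A h hA
    obtain ⟨α, _, h1⟩ := h (Classical.arbitrary Om)
    exact h1.unc (hA.mono (fun x hx => hx.1))

theorem Sp.un {L : Om → ℕ → Om} {Y : Set Om} {m : ℕ} {s : List ℕ} (h : Sp L Y m s) :
    Un L m s Y := h.2

theorem Sp.of_un {L : Om → ℕ → Om} {Y Z : Set Om} {m : ℕ} {s : List ℕ} (h : Sp L Y m s)
    (hZ : Z ⊆ Y) (hU : Un L m s Z) : Sp L Z m s := ⟨h.1.mono hZ, hU⟩

end Pool.Agent.H.MP_670a4f_lc.St
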