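import Pool.Agent.H.MP_670a4f_lc.Q46.Ideal
import Pool.Agent.H.MP_670a4f_lc.St.Comb

/-!
# MP_670a4f_lc, Q46/Lad: a pair of points of a stationary set with interlocking ladders and prescribed codes
-/

set_option autoImplicit false

namespace Pool.Agent.H.MP_670a4f_lc.St

open Set Cardinal

theorem build3 {L : Om → ℕ → Om} (hL : Ladder L) {o : Om → Om → ℕ} (ho : Rc o) {S : Set Om}
    (hS : IsStationary S) (hSL : S ⊆ Lm) (bb : Om → Om) (c1 c2 c3 : ℕ) :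
    ∃ x ∈ S, ∃ y ∈ S, x < y ∧ bb x < y ∧ ∃ (p : ℕ) (q : ℕ → ℕ), W (L x) (L y) x p 2 q ∧
      o x y = c1 ∧ o (L y p) x = c2 ∧ o (L x p) y = c3 := by
  obtain ⟨s, hs4, hs⟩ := typ_exists hL 4 S hS hSL
  obtain ⟨m0, m1, m2, m3, rfl⟩ : ∃ m0 m1 m2 m3, s = [m0, m1, m2, m3] := by
    match s, hs4 with
    | [a, b, c, d], _ => exact ⟨a, b, c, d, rfl⟩
  obtain ⟨Z, hZS, hZA, hZU⟩ := hs
  have hZ : Sp L Z m0 [m1, m2, m3] := ⟨hZA, hZU⟩
  have h01 : m0 < m1 := by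
    obtain ⟨α, T, _, _, _, _, h, _⟩ := hZ.next (Classical.arbitrary Om)
    exact h
  -- the value `x_p`
  have hU : ¬ {α | Typ L [m1, m2, m3] {x | x ∈ Z ∧ L x m0 = α}}.Countable := by
    apply not_countable_of_unb
    intro γ
    obtain ⟨α, hα, h⟩ := hZU γ
    exact ⟨α, h, hα⟩
  obtain ⟨α0, hα0, hB⟩ := (Un.large L m0 [m1, m2, m3]).ideal ho hZU hU c3
  set B : Set Om := {x | x ∈ Z ∧ α0 < x ∧ o α0 x = c3} with hBdef
  obtain ⟨A1, hA1, hA1A, hA1U⟩ := hα0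
  have hSA1 : Sp L A1 m1 [m2, m3] := ⟨hA1A, hA1U⟩
  obtain ⟨α1, A2, _, hA2, _, hSA2, h12, x0, hx0⟩ := hSA1.next (Classical.arbitrary Om)
  have h23 : m2 < m3 := by
    obtain ⟨α, T, _, _, _, _, h, _⟩ := hSA2.next (Classical.arbitrary Om)
    exact h
  -- the value `y_p`
  have hU' : ¬ {β | L x0 (m2 - 1) < β ∧ Typ L [m1, m2, m3] {y | y ∈ B ∧ L y m0 = β}}.Countable := by
    apply not_countable_of_unb
    intro γ
    obtain ⟨β, hβ, h⟩ := hB (max γ (L x0 (m2 - 1)))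
    exact ⟨β, ⟨lt_of_le_of_lt (le_max_right _ _) hβ, h⟩, lt_of_le_of_lt (le_max_left _ _) hβ⟩
  obtain ⟨β0, ⟨hξβ, hβ0⟩, hA3⟩ := (Un.large L m2 [m3]).ideal ho hSA2.2 hU' c2
  set A3 : Set Om := {x | x ∈ A2 ∧ β0 < x ∧ o β0 x = c2} with hA3def
  have hSA3 : Sp L A3 m2 [m3] := hSA2.of_un (fun x hx => hx.1) hA3
  obtain ⟨B1, hB1, hB1A, hB1U⟩ := hβ0
  have hSB1 : Sp L B1 m1 [m2, m3] := ⟨hB1A, hB1U⟩
  obtain ⟨_, B1', _, hB1', _, _, _, y0, hy0'⟩ := hSB1.next (Classical.arbitrary Om)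
  have hy0 : y0 ∈ B1 := hB1' hy0'
  obtain ⟨α2, A4, hα2, hA4, hA4v, hSA4, _, x1, hx1⟩ := hSA3.next (L y0 (m1 - 1))
  obtain ⟨β1, B2, hβ1, hB2, hB2v, hSB2, _, y1, hy1⟩ := hSB1.next (L x1 (m3 - 1))
  obtain ⟨α3, hα3, hA5⟩ := hSA4.2 (L y1 (m2 - 1))
  obtain ⟨x, hx, hfin⟩ := (Un.large L m2 [m3]).ideal ho hSB2.2 hA5.unc c1
  obtain ⟨β2, hβ2, h5⟩ := hfin (max x (bb x))
  obtain ⟨y, ⟨hyB2, hxy, hoxy⟩, hyv⟩ := h5.nonempty
  have hxA4 : x ∈ A4 := hx.1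
  have hxA3 : x ∈ A3 := hA4 hxA4
  have hxA2 : x ∈ A2 := hxA3.1
  have hxA1 : x ∈ A1 := hA2 hxA2
  have hxZ : x ∈ Z ∧ L x m0 = α0 := hA1 hxA1
  have hyB1 : y ∈ B1 := hB2 hyB2
  have hyB : y ∈ B ∧ L y m0 = β0 := hB1 hyB1
  have hyZ : y ∈ Z := hyB.1.1
  refine ⟨x, hZS hxZ.1, y, hZS hyZ, hxy, ?_, m0,
    fun j => if j = 0 then m0 else if j = 1 then m1 else if j = 2 then m2 else m3, ?_, hoxy, ?_, ?_⟩
  · have h1 : L y m2 < y := hL.lt y (hSL (hZS hyZ)) m2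
    rw [hyv] at h1
    exact lt_trans (lt_of_le_of_lt (le_max_right _ _) hβ2) h1
  · constructor
    · simp
    · intro j hj
      interval_cases j
      · simpa using h01
      · simpa using h12
      · simpa using h23
    · intro i hi
      exact hZA x hxZ.1 y hyZ i hi
    · intro j hj
      interval_cases j
      · show L x (m2 - 1) < L y m0
        rw [hyB.2, hSA2.1 x hxA2 x0 hx0 (m2 - 1) (by omega)]
        exact hξβ
      · show L x (m3 - 1) < L y m1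
        rw [hB2v y hyB2, hSA4.1 x hxA4 x1 hx1 (m3 - 1) (by omega)]
        exact hβ1
    · intro j hj
      interval_cases j
      · show L y (m1 - 1) < L x m2
        rw [hA4v x hxA4, hSB1.1 y hyB1 y0 hy0 (m1 - 1) (by omega)]
        exact hα2
      · show L y (m2 - 1) < L x m3
        rw [hx.2, hSB2.1 y hyB2 y1 hy1 (m2 - 1) (by omega)]
        exact hα3
    · show x ≤ L y m2
      rw [hyv]
      exact (lt_of_le_of_lt (le_max_left _ _) hβ2).le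
  · rw [hyB.2]
    exact hxA3.2.2
  · rw [hxZ.2]
    exact hyB.1.2.2

end Pool.Agent.H.MP_670a4f_lc.St
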